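import Pool.Agent.H207.BT.Stm3

/-!
# Project BT: the real estimates in the recursion
-/

set_option autoImplicit false

namespace Pool.Agent.H356.BT207

open Pool.Agent.H207.BT

/-- the growth of `μ ^ N` -/
theorem REAL1_mu {C μ β δ P E : ℝ} {N : ℕ} (hμ : 1 < μ) (hμC : μ ≤ C) (hβ : 0 < β)
    (hβC : β * Real.log C ≤ Real.log μ / 16) (hδ : 0 < δ) (hP : 0 < P) (hPC : P ≤ C ^ N)
    (hE : 0 < E) (hEP : E ≤ P ^ 2 * δ) : E ^ (8 * β) ≤ μ ^ N * δ ^ (8 * β) := by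
  have hμ0 : 0 < μ := by linarith
  have hC0 : 0 < C := by linarith
  have hCN : 0 < C ^ N := pow_pos hC0 N
  have h1 : E ≤ (C ^ N) ^ 2 * δ :=
    hEP.trans (mul_le_mul_of_nonneg_right (pow_le_pow_left₀ hP.le hPC 2) hδ.le)
  have h2 : E ^ (8 * β) ≤ ((C ^ N) ^ 2 * δ) ^ (8 * β) :=
    Real.rpow_le_rpow hE.le h1 (by positivity)
  rw [Real.mul_rpow (by positivity) hδ.le] at h2
  refine h2.trans (mul_le_mul_of_nonneg_right ?_ (Real.rpow_nonneg hδ.le _))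
  rw [Real.rpow_def_of_pos (by positivity), Real.log_pow, Real.log_pow]
  have h3 : μ ^ N = Real.exp (N * Real.log μ) := by
    rw [Real.exp_nat_mul, Real.exp_log hμ0]
  rw [h3]
  apply Real.exp_le_exp.2
  have h4 : (0 : ℝ) ≤ N := Nat.cast_nonneg N
  have h5 := mul_le_mul_of_nonneg_left hβC h4
  push_cast
  nlinarith

/-- the powers of `u = δ ^ (β / 8)` -/
theorem REAL1_pow {δ β : ℝ} (hδ : 0 < δ) (n : ℕ) (s : ℝ) (hs : s = n * (β / 8)) :
    δ ^ s = (δ ^ (β / 8)) ^ n := by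
  rw [← Real.rpow_natCast, ← Real.rpow_mul hδ.le, hs, mul_comm]

theorem REAL1_one_add {x β : ℝ} (hx : 0 < x) : x ^ (1 + β) = x * x ^ β := by
  rw [Real.rpow_add hx, Real.rpow_one]

theorem REAL1_ule {u k : ℝ} (hu0 : 0 < u) (hu1 : u ≤ 1) (huk : u ≤ k) (n : ℕ) (hn : 1 ≤ n) :
    u ^ n ≤ k := by
  have h := pow_le_pow_of_le_one hu0.le hu1 hn
  rw [pow_one] at h
  exact h.trans huk

/-- the first case -/
theorem REAL1_case1 {c₀ L B K₀ β δ δ' P μN x u a1 : ℝ} {m : ℕ} (hc₀ : 0 < c₀) (hL1 : 1 ≤ L)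
    (hB : 1 ≤ B) (hK : 1 ≤ K₀)
    (hβ : 0 < β) (hβ1 : β ≤ 1 / 16) (hδ : 0 < δ) (hδ1 : δ ≤ 1) (hδ' : 0 < δ')
    (hδ'1 : δ * u ≤ δ') (hm : 1 ≤ m) (hP : 0 < P) (hμN : 1 ≤ μN) (hx : x = δ' * P / L)
    (hx1 : x ≤ 1) (F1 : c₀ * μN ≤ x ^ m * P) (hu : u = δ ^ (β / 8)) (hu1 : u ≤ 1)
    (hmu : a1 ≤ μN * u ^ 64)
    (k1 : u * ((2 + K₀ * B) * L) ≤ c₀ * a1)
    (k2 : u * L ≤ c₀ * (c₀ / L) ^ β * a1)
    (k3 : u * (B * K₀ * L) ≤ (c₀ / L) ^ (β / 2)) :
    (2 + K₀ * B) * δ ≤ x ^ (m + 1) ∧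
      ∀ y' : ℝ, x ^ (1 + β) ≤ y' → y' ≤ x → L ≤ y' ^ m * P ∧ δ * u ^ 8 ≤ y' / (B * K₀ * P) := by
  have hL0 : 0 < L := by linarith
  have hB0 : 0 < B := by linarith
  have hK0 : 0 < K₀ := by linarith
  have hμN0 : 0 < μN := by linarith
  have hu0 : 0 < u := by rw [hu]; exact Real.rpow_pos_of_pos hδ _
  have hx0 : 0 < x := by rw [hx]; positivity
  have hcL : 0 < c₀ / L := div_pos hc₀ hL0
  have hxe : P * (δ' / L) = x := by rw [hx]; ring
  have F2 : x ^ (m + 1) = x ^ m * P * (δ' / L) := by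
    rw [mul_assoc, hxe, pow_succ]
  have F2' : c₀ * μN * (δ * u / L) ≤ x ^ (m + 1) := by
    rw [F2]
    have h1 : δ * u / L ≤ δ' / L := div_le_div_of_nonneg_right hδ'1 hL0.le
    exact mul_le_mul F1 h1 (by positivity) (by positivity)
  have F3 : c₀ / L * (δ * u) ≤ x ^ (m + 1) := by
    refine le_trans ?_ F2'
    have h1 : c₀ * μN * (δ * u / L) = μN * (c₀ / L * (δ * u)) := by
      field_simp
    rw [h1]
    have h2 : 0 ≤ c₀ / L * (δ * u) := by positivity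
    nlinarith
  refine ⟨?_, ?_⟩
  · refine le_trans ?_ F2'
    have h63 : u ^ 63 ≤ u := by
      have := pow_le_pow_of_le_one hu0.le hu1 (show 1 ≤ 63 by norm_num)
      rwa [pow_one] at this
    have h1 : u ^ 63 * ((2 + K₀ * B) * L) ≤ u ^ 63 * (c₀ * μN * u) := by
      calc u ^ 63 * ((2 + K₀ * B) * L) ≤ u * ((2 + K₀ * B) * L) :=
            mul_le_mul_of_nonneg_right h63 (by positivity)
        _ ≤ c₀ * a1 := k1
        _ ≤ c₀ * (μN * u ^ 64) := mul_le_mul_of_nonneg_left hmu hc₀.le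
        _ = u ^ 63 * (c₀ * μN * u) := by ring
    have h2 : (2 + K₀ * B) * L ≤ c₀ * μN * u := le_of_mul_le_mul_left h1 (pow_pos hu0 63)
    have h3 : (2 + K₀ * B) ≤ c₀ * μN * u / L := by rwa [le_div_iff₀ hL0]
    calc (2 + K₀ * B) * δ ≤ c₀ * μN * u / L * δ := mul_le_mul_of_nonneg_right h3 hδ.le
      _ = c₀ * μN * (δ * u / L) := by ring
  · intro y' hy1 hy2
    rw [REAL1_one_add hx0] at hy1
    have hxβ0 : 0 < x ^ β := Real.rpow_pos_of_pos hx0 _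
    have hy'0 : 0 < y' := lt_of_lt_of_le (mul_pos hx0 hxβ0) hy1
    constructor
    · -- (x ^ m) ^ β
      have g1 : (c₀ / L) ^ β * u ^ 16 ≤ (x ^ m) ^ β := by
        have e1 : c₀ / L * δ ^ 2 ≤ x ^ m := by
          have e2 : x ^ (m + 1) ≤ x ^ m := pow_le_pow_of_le_one hx0.le hx1 (Nat.le_succ m)
          have e3 : δ ≤ u := by
            rw [hu]
            have := Real.rpow_le_rpow_of_exponent_ge hδ hδ1 (show β / 8 ≤ 1 by linarith)
            rwa [Real.rpow_one] at this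
          refine le_trans ?_ (F3.trans e2)
          refine mul_le_mul_of_nonneg_left ?_ hcL.le
          nlinarith
        have e4 := Real.rpow_le_rpow (by positivity) e1 hβ.le
        rw [Real.mul_rpow hcL.le (by positivity)] at e4
        have e5 : (δ ^ 2) ^ β = u ^ 16 := by
          rw [hu, ← REAL1_pow hδ 16 (2 * β) (by push_cast; ring), Real.rpow_mul hδ.le]
          norm_num
        rwa [e5] at e4
      have g2 : x ^ m * (x ^ m) ^ β ≤ y' ^ m := by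
        have e1 : (x * x ^ β) ^ m ≤ y' ^ m := pow_le_pow_left₀ (by positivity) hy1 m
        have e2 : (x * x ^ β) ^ m = x ^ m * (x ^ m) ^ β := by
          rw [mul_pow]
          congr 1
          rw [← Real.rpow_natCast, ← Real.rpow_mul hx0.le, ← Real.rpow_natCast,
            ← Real.rpow_mul hx0.le, mul_comm]
        rwa [e2] at e1
      have g3 : c₀ * μN * ((c₀ / L) ^ β * u ^ 16) ≤ y' ^ m * P := by
        calc c₀ * μN * ((c₀ / L) ^ β * u ^ 16) ≤ (x ^ m * P) * (x ^ m) ^ β :=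
              mul_le_mul F1 g1 (by positivity) (by positivity)
          _ = x ^ m * (x ^ m) ^ β * P := by ring
          _ ≤ y' ^ m * P := mul_le_mul_of_nonneg_right g2 hP.le
      refine le_trans ?_ g3
      have h48 : u ^ 48 ≤ u := by
        have := pow_le_pow_of_le_one hu0.le hu1 (show 1 ≤ 48 by norm_num)
        rwa [pow_one] at this
      have ha5 : 0 < (c₀ / L) ^ β := Real.rpow_pos_of_pos hcL _
      have h1 : u ^ 48 * L ≤ u ^ 48 * (c₀ * μN * ((c₀ / L) ^ β * u ^ 16)) := by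
        calc u ^ 48 * L ≤ u * L := mul_le_mul_of_nonneg_right h48 hL0.le
          _ ≤ c₀ * (c₀ / L) ^ β * a1 := k2
          _ ≤ c₀ * (c₀ / L) ^ β * (μN * u ^ 64) := mul_le_mul_of_nonneg_left hmu (by positivity)
          _ = u ^ 48 * (c₀ * μN * ((c₀ / L) ^ β * u ^ 16)) := by ring
      exact le_of_mul_le_mul_left h1 (pow_pos hu0 48)
    · have g1 : (c₀ / L) ^ (β / 2) * u ^ 5 ≤ x ^ β := by
        have e1 : c₀ / L * (δ * u) ≤ x ^ 2 :=
          F3.trans (pow_le_pow_of_le_one hx0.le hx1 (by omega))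
        have e2 := Real.rpow_le_rpow (by positivity) e1 (show 0 ≤ β / 2 by linarith)
        have e3 : (x ^ 2) ^ (β / 2) = x ^ β := by
          rw [← Real.rpow_natCast, ← Real.rpow_mul hx0.le]
          congr 1
          push_cast
          ring
        rw [e3, Real.mul_rpow hcL.le (by positivity), Real.mul_rpow hδ.le hu0.le] at e2
        refine le_trans ?_ e2
        have e4 : δ ^ (β / 2) = u ^ 4 := by
          rw [hu, ← REAL1_pow hδ 4 (β / 2) (by push_cast; ring)]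
        have e5 : u ≤ u ^ (β / 2) := by
          have := Real.rpow_le_rpow_of_exponent_ge hu0 hu1 (show β / 2 ≤ 1 by linarith)
          rwa [Real.rpow_one] at this
        rw [e4]
        refine mul_le_mul_of_nonneg_left ?_ (Real.rpow_nonneg hcL.le _)
        calc u ^ 5 = u ^ 4 * u := by ring
          _ ≤ u ^ 4 * u ^ (β / 2) := mul_le_mul_of_nonneg_left e5 (by positivity)
      have ha6 : 0 < (c₀ / L) ^ (β / 2) := Real.rpow_pos_of_pos hcL _
      rw [le_div_iff₀ (by positivity)]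
      refine le_trans ?_ hy1
      -- δ u^8 B K₀ P ≤ x x^β, x = δ' P / L ≥ δ u P / L
      have g2 : δ * u * P / L ≤ x := by
        rw [hx]
        exact div_le_div_of_nonneg_right (mul_le_mul_of_nonneg_right hδ'1 hP.le) hL0.le
      have g3 : δ * u * P / L * ((c₀ / L) ^ (β / 2) * u ^ 5) ≤ x * x ^ β :=
        mul_le_mul g2 g1 (by positivity) hx0.le
      refine le_trans ?_ g3
      have h2 : u ^ 2 ≤ u := by nlinarith
      have h3 : u ^ 2 * (B * K₀ * L) ≤ (c₀ / L) ^ (β / 2) :=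
        (mul_le_mul_of_nonneg_right h2 (by positivity)).trans k3
      have h4 : 0 ≤ δ * u ^ 6 * P / L := by positivity
      calc δ * u ^ 8 * (B * K₀ * P) = δ * u ^ 6 * P / L * (u ^ 2 * (B * K₀ * L)) := by
            field_simp
        _ ≤ δ * u ^ 6 * P / L * (c₀ / L) ^ (β / 2) := mul_le_mul_of_nonneg_left h3 h4
        _ = δ * u * P / L * ((c₀ / L) ^ (β / 2) * u ^ 5) := by ring

/-- the second case -/
theorem REAL1_case2 {L B K₀ β δ δ' P δ₁ e u : ℝ} {m M : ℕ} (hL1 : 1 ≤ L)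
    (hB : 1 ≤ B) (hK : 1 ≤ K₀)
    (hβ : 0 < β) (hβ1 : β ≤ 1 / 16) (hδ : 0 < δ) (hδ' : 0 < δ')
    (hδ'1 : δ * u ≤ δ') (hδ'2 : δ' ≤ δ) (hm : 1 ≤ m) (hmM : m ≤ M) (hP : 0 < P) (hR : δ' * P ≤ 1)
    (hδ₁ : 0 < δ₁) (hδ₁1 : δ₁ ≤ 1) (he0 : 0 < e) (hem : e ^ (m + 1) = δ₁)
    (hex : e ≤ δ' * P / L) (hu0 : 0 < u) (hu1 : u ≤ 1) (hδu : δ ≤ u)
    (k4 : u * (2 + K₀ * B) ≤ δ₁) (k5 : u * L ≤ δ₁ ^ (M + 1)) (k6 : u * (B * K₀) ≤ δ₁) :
    (2 + K₀ * B) * δ ≤ e ^ (m + 1) ∧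
      ∀ y' : ℝ, e ^ (1 + β) ≤ y' → y' ≤ e → L ≤ y' ^ m * P ∧ δ * u ^ 8 ≤ y' / (B * K₀ * P) := by
  have hL0 : 0 < L := by linarith
  have hB0 : 0 < B := by linarith
  have hK0 : 0 < K₀ := by linarith
  have he1 : e ≤ 1 := by
    by_contra h
    push Not at h
    have h1 : 1 < e ^ (m + 1) := one_lt_pow₀ h (by omega)
    linarith
  refine ⟨?_, ?_⟩
  · rw [hem]
    have : (2 + K₀ * B) * δ ≤ (2 + K₀ * B) * u := mul_le_mul_of_nonneg_left hδu (by positivity)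
    linarith
  · intro y' hy1 hy2
    have h1 : δ₁ ≤ y' := by
      refine le_trans ?_ hy1
      have e1 : e ^ (2 : ℝ) ≤ e ^ (1 + β) :=
        Real.rpow_le_rpow_of_exponent_ge he0 he1 (by linarith)
      have e2 : e ^ (2 : ℝ) = e ^ 2 := by norm_num
      rw [e2] at e1
      refine le_trans ?_ e1
      rw [← hem]
      exact pow_le_pow_of_le_one he0.le he1 (by omega)
    have hδe : δ₁ ≤ e := h1.trans hy2
    have hy0 : 0 < y' := by linarith
    constructor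
    · have e1 : δ₁ ^ M ≤ y' ^ m :=
        (pow_le_pow_of_le_one hδ₁.le hδ₁1 hmM).trans (pow_le_pow_left₀ hδ₁.le h1 m)
      have e2 : δ₁ ≤ δ * P := by
        have : δ' * P / L ≤ δ' * P := div_le_self (by positivity) hL1
        have : δ' * P ≤ δ * P := mul_le_mul_of_nonneg_right hδ'2 hP.le
        linarith
      have e3 : δ₁ ^ (M + 1) ≤ y' ^ m * (δ * P) := by
        rw [pow_succ]
        exact mul_le_mul e1 e2 hδ₁.le (by positivity)
      have e4 : δ * L ≤ δ * (y' ^ m * P) := by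
        calc δ * L ≤ u * L := mul_le_mul_of_nonneg_right hδu hL0.le
          _ ≤ δ₁ ^ (M + 1) := k5
          _ ≤ y' ^ m * (δ * P) := e3
          _ = δ * (y' ^ m * P) := by ring
      exact le_of_mul_le_mul_left e4 hδ
    · rw [le_div_iff₀ (by positivity)]
      refine le_trans ?_ h1
      have h7 : u ^ 7 ≤ u := by
        have := pow_le_pow_of_le_one hu0.le hu1 (show 1 ≤ 7 by norm_num)
        rwa [pow_one] at this
      have e1 : δ * u * P ≤ 1 := (mul_le_mul_of_nonneg_right hδ'1 hP.le).trans hR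
      calc δ * u ^ 8 * (B * K₀ * P) = (u ^ 7 * (B * K₀)) * (δ * u * P) := by ring
        _ ≤ (u ^ 7 * (B * K₀)) * 1 := mul_le_mul_of_nonneg_left e1 (by positivity)
        _ ≤ u * (B * K₀) := by
            rw [mul_one]
            exact mul_le_mul_of_nonneg_right h7 (by positivity)
        _ ≤ δ₁ := k6

theorem t_REAL1 : S_REAL1 := by
  intro C c μ B K₀ β δ₁ M hc hμ hμC hB hK hβ hβC hδ₁ hδ₁1
  have hB0 : 0 < B := by linarith
  have hK0 : 0 < K₀ := by linarith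
  have hμ0 : 0 < μ := by linarith
  have hC0 : 0 < C := by linarith
  have hlogμ : 0 < Real.log μ := Real.log_pos hμ
  have hlogC : Real.log μ ≤ Real.log C := Real.log_le_log hμ0 hμC
  have hβ1 : β ≤ 1 / 16 := by
    have h : β * Real.log C ≤ (1 / 16) * Real.log C := by linarith
    exact le_of_mul_le_mul_right h (by linarith)
  obtain ⟨L, hL⟩ : ∃ L, L = 2 * K₀ * B := ⟨_, rfl⟩
  have hL1 : 1 ≤ L := by rw [hL]; nlinarith
  have hL0 : 0 < L := by linarith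
  obtain ⟨c₀, hc₀e⟩ : ∃ c₀, c₀ = c / B := ⟨_, rfl⟩
  have hc₀ : 0 < c₀ := by rw [hc₀e]; exact div_pos hc hB0
  obtain ⟨a1, ha1e⟩ : ∃ a1, a1 = (c₀ * L) ^ (8 * β) := ⟨_, rfl⟩
  have ha1 : 0 < a1 := by rw [ha1e]; exact Real.rpow_pos_of_pos (by positivity) _
  have hcL : 0 < c₀ / L := div_pos hc₀ hL0
  have ha5 : 0 < (c₀ / L) ^ β := Real.rpow_pos_of_pos hcL _
  have ha6 : 0 < (c₀ / L) ^ (β / 2) := Real.rpow_pos_of_pos hcL _
  obtain ⟨κ, hκ0, q0, q1, q2, q3, q4, q5, q6⟩ : ∃ κ : ℝ, 0 < κ ∧ κ ≤ 1 ∧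
      κ ≤ c₀ * a1 / ((2 + K₀ * B) * L) ∧ κ ≤ c₀ * (c₀ / L) ^ β * a1 / L ∧
      κ ≤ (c₀ / L) ^ (β / 2) / (B * K₀ * L) ∧ κ ≤ δ₁ / (2 + K₀ * B) ∧
      κ ≤ δ₁ ^ (M + 1) / L ∧ κ ≤ δ₁ / (B * K₀) := by
    refine ⟨min 1 (min (c₀ * a1 / ((2 + K₀ * B) * L)) (min (c₀ * (c₀ / L) ^ β * a1 / L)
      (min ((c₀ / L) ^ (β / 2) / (B * K₀ * L)) (min (δ₁ / (2 + K₀ * B))
      (min (δ₁ ^ (M + 1) / L) (δ₁ / (B * K₀))))))), ?_, ?_⟩
    · refine lt_min one_pos (lt_min (by positivity) (lt_min (by positivity)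
        (lt_min (by positivity) (lt_min (by positivity) (lt_min (by positivity)
        (by positivity))))))
    · have h := le_refl (min 1 (min (c₀ * a1 / ((2 + K₀ * B) * L))
        (min (c₀ * (c₀ / L) ^ β * a1 / L)
        (min ((c₀ / L) ^ (β / 2) / (B * K₀ * L)) (min (δ₁ / (2 + K₀ * B))
        (min (δ₁ ^ (M + 1) / L) (δ₁ / (B * K₀))))))))
      simp only [le_min_iff] at h
      exact h
  refine ⟨κ ^ (8 / β), Real.rpow_pos_of_pos hκ0 _, ?_⟩
  intro δ δ' P N m hδ hδb hδ'1 hδ'2 hm hmM hP hPC hR H y hy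
  rw [← hL] at H hy
  have hδ1 : δ ≤ 1 := hδb.le.trans (Real.rpow_le_one hκ0.le q0 (by positivity))
  obtain ⟨u, hu⟩ : ∃ u, u = δ ^ (β / 8) := ⟨_, rfl⟩
  have hu0 : 0 < u := by rw [hu]; exact Real.rpow_pos_of_pos hδ _
  have huκ : u ≤ κ := by
    have h1 : δ ^ (β / 8) ≤ (κ ^ (8 / β)) ^ (β / 8) :=
      Real.rpow_le_rpow hδ.le hδb.le (by positivity)
    rw [← Real.rpow_mul hκ0.le] at h1
    have h2 : 8 / β * (β / 8) = 1 := by field_simp
    rw [h2, Real.rpow_one] at h1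
    rw [hu]
    exact h1
  have hu1 : u ≤ 1 := huκ.trans q0
  have k1 : u * ((2 + K₀ * B) * L) ≤ c₀ * a1 := by
    rw [← le_div_iff₀ (by positivity)]; exact huκ.trans q1
  have k2 : u * L ≤ c₀ * (c₀ / L) ^ β * a1 := by
    rw [← le_div_iff₀ (by positivity)]; exact huκ.trans q2
  have k3 : u * (B * K₀ * L) ≤ (c₀ / L) ^ (β / 2) := by
    rw [← le_div_iff₀ (by positivity)]; exact huκ.trans q3
  have k4 : u * (2 + K₀ * B) ≤ δ₁ := by
    rw [← le_div_iff₀ (by positivity)]; exact huκ.trans q4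
  have k5 : u * L ≤ δ₁ ^ (M + 1) := by
    rw [← le_div_iff₀ (by positivity)]; exact huκ.trans q5
  have k6 : u * (B * K₀) ≤ δ₁ := by
    rw [← le_div_iff₀ (by positivity)]; exact huκ.trans q6
  have hδu : δ ≤ u := by
    rw [hu]
    have := Real.rpow_le_rpow_of_exponent_ge hδ hδ1 (show β / 8 ≤ 1 by linarith)
    rwa [Real.rpow_one] at this
  have e1 : δ ^ (1 + β / 8) = δ * u := by rw [REAL1_one_add hδ, hu]
  have e2 : δ ^ (1 + β) = δ * u ^ 8 := by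
    rw [REAL1_one_add hδ, hu, ← REAL1_pow hδ 8 β (by push_cast; ring)]
  have e3 : δ ^ (8 * β) = u ^ 64 := by
    rw [hu, ← REAL1_pow hδ 64 (8 * β) (by push_cast; ring)]
  rw [e1] at hδ'1
  have hδ' : 0 < δ' := lt_of_lt_of_le (mul_pos hδ hu0) hδ'1
  obtain ⟨x, hx⟩ : ∃ x, x = δ' * P / L := ⟨_, rfl⟩
  rw [← hx] at H hy
  have hx0 : 0 < x := by rw [hx]; positivity
  have hx1 : x ≤ 1 := by
    rw [hx, div_le_one hL0]
    linarith
  have hμN : 1 ≤ μ ^ N := one_le_pow₀ hμ.le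
  have F1 : c₀ * μ ^ N ≤ x ^ m * P := by
    have h1 : c * μ ^ N ≤ c * μ ^ (N + 1) :=
      mul_le_mul_of_nonneg_left (pow_le_pow_right₀ hμ.le (Nat.le_succ N)) hc.le
    have h2 : B * (c₀ * μ ^ N) ≤ B * (x ^ m * P) := by
      calc B * (c₀ * μ ^ N) = c * μ ^ N := by rw [hc₀e]; field_simp
        _ ≤ B * x ^ m * P := h1.trans H
        _ = B * (x ^ m * P) := by ring
    exact le_of_mul_le_mul_left h2 hB0
  have hmu : a1 ≤ μ ^ N * u ^ 64 := by
    rw [ha1e, ← e3]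
    refine REAL1_mu hμ hμC hβ hβC hδ hP hPC (by positivity) ?_
    -- c₀ L ≤ P ^ 2 δ
    have g1 : c₀ * (δ' / L) ≤ x ^ (m + 1) := by
      have g2 : x ^ (m + 1) = x ^ m * P * (δ' / L) := by
        have hxe : P * (δ' / L) = x := by rw [hx]; ring
        rw [mul_assoc, hxe, pow_succ]
      rw [g2]
      refine mul_le_mul_of_nonneg_right ?_ (by positivity)
      refine le_trans ?_ F1
      nlinarith
    have g3 : c₀ * (δ' / L) ≤ x ^ 2 :=
      g1.trans (pow_le_pow_of_le_one hx0.le hx1 (by omega))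
    have g4 : x ^ 2 = P ^ 2 * δ' / L * (δ' / L) := by
      rw [hx]; ring
    rw [g4] at g3
    have g5 := le_of_mul_le_mul_right g3 (by positivity : 0 < δ' / L)
    rw [le_div_iff₀ hL0] at g5
    refine g5.trans (mul_le_mul_of_nonneg_left hδ'2 (by positivity))
  have hE0 : 0 < δ₁ ^ ((1 : ℝ) / ((m : ℝ) + 1)) := Real.rpow_pos_of_pos hδ₁ _
  have hEm : (δ₁ ^ ((1 : ℝ) / ((m : ℝ) + 1))) ^ (m + 1) = δ₁ := by
    rw [← Real.rpow_natCast, ← Real.rpow_mul hδ₁.le]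
    have : (1 : ℝ) / ((m : ℝ) + 1) * ((m + 1 : ℕ) : ℝ) = 1 := by
      push_cast
      field_simp
    rw [this, Real.rpow_one]
  rw [e2]
  rcases le_total x (δ₁ ^ ((1 : ℝ) / ((m : ℝ) + 1))) with hc1 | hc2
  · have hyx : y = x := by rw [hy, min_eq_left hc1]
    rw [hyx]
    have hcase := REAL1_case1 (μN := μ ^ N) hc₀ hL1 hB hK hβ hβ1 hδ hδ1 hδ' hδ'1 hm hP hμN hx
      hx1 F1 hu hu1 hmu k1 k2 k3
    refine ⟨hx0, hcase.1, ?_, ?_⟩
    · calc x ^ (m + 1) ≤ (δ₁ ^ ((1 : ℝ) / ((m : ℝ) + 1))) ^ (m + 1) :=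
            pow_le_pow_left₀ hx0.le hc1 _
        _ = δ₁ := hEm
    · rw [← hL]
      exact hcase.2
  · have hyx : y = δ₁ ^ ((1 : ℝ) / ((m : ℝ) + 1)) := by rw [hy, min_eq_right hc2]
    rw [hyx]
    rw [hx] at hc2
    have hcase := REAL1_case2 (M := M) hL1 hB hK hβ hβ1 hδ hδ' hδ'1 hδ'2 hm hmM hP hR hδ₁ hδ₁1 hE0
      hEm hc2 hu0 hu1 hδu k4 k5 k6
    refine ⟨hE0, hcase.1, hEm.le, ?_⟩
    rw [← hL]
    exact hcase.2

end Pool.Agent.H356.BT207
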